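import Pool.Agent.P.MP_32bf8a_an.PR.Generic

/-!
Conjugate reciprocal polynomials; pairs of polynomials with real ratio on the unit circle.
-/

open Filter Topology Complex Polynomial
open scoped ComplexConjugate

namespace Pool.Agent.P.MP_32bf8a_an.PR

/-- the conjugate reciprocal of `P` in formal degree `D` -/
noncomputable def st (D : ℕ) (P : ℂ[X]) : ℂ[X] := reflect D (P.map conj)

theorem coeff_st {D a : ℕ} (P : ℂ[X]) (ha : a ≤ D) :
    (st D P).coeff a = conj (P.coeff (D - a)) := by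
  rw [st, coeff_reflect, revAt_le ha, coeff_map]

theorem natDegree_st_le {D : ℕ} {P : ℂ[X]} (h : P.natDegree ≤ D) : (st D P).natDegree ≤ D :=
  natDegree_reflect_le.trans (max_le le_rfl (natDegree_map_le.trans h))

theorem eval_reflect {D : ℕ} {P : ℂ[X]} (h : P.natDegree ≤ D) {z : ℂ} (hz : z ≠ 0) :
    (reflect D P).eval z = z ^ D * P.eval z⁻¹ := by
  have : Invertible z⁻¹ := invertibleOfNonzero (inv_ne_zero hz)
  have h1 := eval₂_reflect_mul_pow (RingHom.id ℂ) z⁻¹ D P h
  rw [invOf_eq_inv, inv_inv, eval₂_id, eval₂_id] at h1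
  rw [← h1, inv_pow]
  field_simp

theorem eval_st {D : ℕ} {P : ℂ[X]} (h : P.natDegree ≤ D) {z : ℂ} (hz : ‖z‖ = 1) :
    (st D P).eval z = z ^ D * conj (P.eval z) := by
  have hz0 : z ≠ 0 := by rintro rfl; simp at hz
  rw [st, eval_reflect (natDegree_map_le.trans h) hz0, conj_eval, inv_eq_conj hz]

theorem st_mul {D E : ℕ} {P Q : ℂ[X]} (hP : P.natDegree ≤ D) (hQ : Q.natDegree ≤ E) :
    st (D + E) (P * Q) = st D P * st E Q := by
  rw [st, Polynomial.map_mul, reflect_mul _ _ (natDegree_map_le.trans hP)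
    (natDegree_map_le.trans hQ), st, st]

theorem st_C_mul (D : ℕ) (c : ℂ) (P : ℂ[X]) : st D (C c * P) = C (conj c) * st D P := by
  rw [st, Polynomial.map_mul, map_C, reflect_C_mul, st]

theorem st_st (D : ℕ) (P : ℂ[X]) : st D (st D P) = P := by
  ext n
  simp [st]

theorem st_ne_zero (D : ℕ) {P : ℂ[X]} (h : P ≠ 0) : st D P ≠ 0 := by
  intro h1
  apply h
  rw [← st_st D P, h1]
  simp [st]

theorem circle_identity {D : ℕ} {P Q : ℂ[X]} (hP : P.natDegree ≤ D) (hQ : Q.natDegree ≤ D)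
    (s : Finset ℂ) (hs : ∀ z ∈ s, ‖z‖ = 1) (hc : 2 * D < s.card)
    (h : ∀ z ∈ s, (P.eval z * conj (Q.eval z)).im = 0) : P * st D Q = st D P * Q := by
  rw [← sub_eq_zero]
  refine eq_zero_of_natDegree_lt_card_of_eval_eq_zero' _ s (fun z hz => ?_) ?_
  · rw [eval_sub, eval_mul, eval_mul, eval_st hP (hs z hz), eval_st hQ (hs z hz)]
    have h1 : P.eval z * conj (Q.eval z) = conj (P.eval z) * Q.eval z := by
      have := conj_eq_iff_im.2 (h z hz)
      rw [map_mul, conj_conj] at this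
      exact this.symm
    linear_combination z ^ D * h1
  · refine lt_of_le_of_lt ((natDegree_sub_le _ _).trans (max_le ?_ ?_)) hc
    · exact natDegree_mul_le.trans (by have := natDegree_st_le hQ; omega)
    · exact natDegree_mul_le.trans (by have := natDegree_st_le hP; omega)

theorem factor {D : ℕ} {P Q : ℂ[X]} (hP : P.natDegree ≤ D) (hQ : Q.natDegree ≤ D)
    (hid : P * st D Q = st D P * Q) (hdep : ¬ Dep P Q) :
    ∃ (g p q : ℂ[X]) (δ : ℕ), g ≠ 0 ∧ g.natDegree + δ ≤ D ∧ p.natDegree ≤ δ ∧ q.natDegree ≤ δ ∧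
      st δ p = p ∧ st δ q = q ∧ P = g * p ∧ Q = g * q := by
  have hP0 : P ≠ 0 := by
    rintro rfl
    exact hdep ⟨1, 0, by simp, by simp⟩
  have hQ0 : Q ≠ 0 := by
    rintro rfl
    exact hdep ⟨0, 1, by simp, by simp⟩
  obtain ⟨p, q, g, hrel, rfl, rfl⟩ := UniqueFactorizationMonoid.exists_reduced_factors P hP0 Q
  have hg : g ≠ 0 := left_ne_zero_of_mul hP0
  have hp : p ≠ 0 := right_ne_zero_of_mul hP0
  have hq : q ≠ 0 := right_ne_zero_of_mul hQ0
  rw [natDegree_mul hg hp] at hP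
  rw [natDegree_mul hg hq] at hQ
  set δ := max p.natDegree q.natDegree with hδ
  have h1 : p.natDegree ≤ δ := le_max_left _ _
  have h2 : q.natDegree ≤ δ := le_max_right _ _
  have h3 : g.natDegree + δ ≤ D := by omega
  obtain ⟨e, rfl⟩ : ∃ e, D = e + δ := ⟨D - δ, by omega⟩
  have h4 : g.natDegree ≤ e := by omega
  rw [st_mul h4 h1, st_mul h4 h2] at hid
  have h5 : p * st δ q = st δ p * q := by
    apply mul_left_cancel₀ (mul_ne_zero hg (st_ne_zero e hg))
    linear_combination hid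
  obtain ⟨s, hs⟩ : p ∣ st δ p := hrel.dvd_of_dvd_mul_right ⟨_, h5.symm⟩
  have hs' : st δ q = q * s := by
    apply mul_left_cancel₀ hp
    rw [h5, hs]; ring
  have hs0 : s ≠ 0 := by
    rintro rfl
    exact st_ne_zero δ hp (by simpa using hs)
  have d1 := natDegree_st_le h1
  have d2 := natDegree_st_le h2
  rw [hs, natDegree_mul hp hs0] at d1
  rw [hs', natDegree_mul hq hs0] at d2
  have d3 : s.natDegree ≤ 0 := by omega
  obtain ⟨σ, rfl⟩ : ∃ σ, s = C σ := ⟨_, eq_C_of_natDegree_le_zero d3⟩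
  have hσ : conj σ * σ = 1 := by
    have e1 := st_st δ p
    rw [hs, mul_comm p, st_C_mul, hs] at e1
    have e2 : C (conj σ * σ) * p = C 1 * p := by
      rw [C_mul, C_1]; linear_combination e1
    exact C_injective (mul_right_cancel₀ hp e2)
  obtain ⟨c, rfl⟩ := IsAlgClosed.exists_pow_nat_eq σ two_pos
  have hc : conj c * c = 1 := by
    have e1 : ‖c‖ ^ 4 = 1 := by
      have := congrArg norm hσ
      simp only [norm_mul, norm_pow, map_pow, RCLike.norm_conj, norm_one] at this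
      linear_combination this
    have e2 : ‖c‖ = 1 := (pow_eq_one_iff_of_nonneg (norm_nonneg _) (by norm_num)).1 e1
    rw [conj_mul', e2]; simp
  have hc' : C (conj c) * C c = 1 := by rw [← C_mul, hc, C_1]
  refine ⟨C (conj c) * g, C c * p, C c * q, δ, ?_, ?_, (natDegree_C_mul_le _ _).trans h1,
    (natDegree_C_mul_le _ _).trans h2, ?_, ?_, ?_, ?_⟩
  · exact mul_ne_zero (left_ne_zero_of_mul_eq_one hc') hg
  · have := natDegree_C_mul_le (conj c) g
    omega
  · rw [st_C_mul, hs, C_pow]; linear_combination (C c * p) * hc'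
  · rw [st_C_mul, hs', C_pow]; linear_combination (C c * q) * hc'
  · linear_combination (-(g * p)) * hc'
  · linear_combination (-(g * q)) * hc'

end Pool.Agent.P.MP_32bf8a_an.PR
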