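import Mathlib

/-!
Algebraic closure of the ring generated by a set of complex numbers, generic families of points.
-/

open Filter Topology Complex Polynomial
open scoped ComplexConjugate

namespace Pool.Agent.P.MP_32bf8a_an.PR

/-- complex numbers algebraic over the rational algebra generated by `W` -/
noncomputable def cl (W : Set ℂ) : Subring ℂ :=
  (Subalgebra.algebraicClosure (Algebra.adjoin ℚ W) ℂ).toSubring

theorem mem_cl {W : Set ℂ} {z : ℂ} :
    z ∈ cl W ↔ z ∈ (AlgebraicIndependent.matroid ℚ ℂ).closure W := by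
  rw [AlgebraicIndependent.matroid_closure_eq]; rfl

theorem mem_cl' {W : Set ℂ} {z : ℂ} : z ∈ cl W ↔ IsAlgebraic (Algebra.adjoin ℚ W) z := Iff.rfl

theorem subset_cl {W : Set ℂ} {z : ℂ} (h : z ∈ W) : z ∈ cl W :=
  mem_cl.2 ((AlgebraicIndependent.matroid ℚ ℂ).subset_closure W (by simp) h)

theorem cl_le {W W' : Set ℂ} (h : ∀ z ∈ W, z ∈ cl W') : cl W ≤ cl W' := by
  intro z hz
  rw [mem_cl] at hz ⊢
  exact (AlgebraicIndependent.matroid ℚ ℂ).closure_subset_closure_of_subset_closure
    (fun x hx => mem_cl.1 (h x hx)) hz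

theorem cl_mono {W W' : Set ℂ} (h : W ⊆ W') : cl W ≤ cl W' :=
  cl_le fun _ hz => subset_cl (h hz)

theorem root_mem_cl {W : Set ℂ} {f : ℂ[X]} (hf : f ≠ 0) (hc : ∀ n, f.coeff n ∈ cl W) {z : ℂ}
    (hz : f.eval z = 0) : z ∈ cl W := by
  have h1 : z ∈ cl (cl W : Set ℂ) := by
    rw [mem_cl']
    have h2 : f ∈ lifts (algebraMap (Algebra.adjoin ℚ (cl W : Set ℂ)) ℂ) := by
      rw [lifts_iff_coeff_lifts]
      intro n
      exact ⟨⟨f.coeff n, Algebra.subset_adjoin (hc n)⟩, rfl⟩
    obtain ⟨q, hq⟩ := h2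
    refine ⟨q, ?_, ?_⟩
    · rintro rfl
      exact hf (by simpa using hq.symm)
    · rw [aeval_def, ← eval_map]
      simp only [coe_mapRingHom] at hq
      rw [hq, hz]
  exact cl_le (fun _ h => h) h1

theorem rat_mem_cl (W : Set ℂ) (q : ℚ) : (q : ℂ) ∈ cl W := by
  rw [mem_cl']
  exact isAlgebraic_algebraMap (⟨(q : ℂ), (Algebra.adjoin ℚ W).algebraMap_mem q⟩ :
    Algebra.adjoin ℚ W)

theorem I_mem_cl (W : Set ℂ) : I ∈ cl W := by
  refine root_mem_cl (f := X ^ 2 + 1) (X_pow_add_C_ne_zero (by norm_num) (1 : ℂ)) ?_ (by simp)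
  intro n
  simp only [coeff_add, coeff_X_pow, coeff_one]
  refine add_mem ?_ ?_ <;> split_ifs <;> simp

theorem re_mem_cl {W : Set ℂ} {z : ℂ} (h1 : z ∈ cl W) (h2 : conj z ∈ cl W) :
    (z.re : ℂ) ∈ cl W := by
  have : (z.re : ℂ) = ((1 / 2 : ℚ) : ℂ) * (z + conj z) := by
    rw [add_conj]; push_cast; ring
  rw [this]
  exact mul_mem (rat_mem_cl W _) (add_mem h1 h2)

theorem im_mem_cl {W : Set ℂ} {z : ℂ} (h1 : z ∈ cl W) (h2 : conj z ∈ cl W) :
    (z.im : ℂ) ∈ cl W := by
  have : (z.im : ℂ) = ((-1 / 2 : ℚ) : ℂ) * I * (z - conj z) := by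
    rw [sub_conj]; push_cast
    linear_combination (z.im : ℂ) * I_mul_I
  rw [this]
  exact mul_mem (mul_mem (rat_mem_cl W _) (I_mem_cl W)) (sub_mem h1 h2)

theorem cl_countable {W : Set ℂ} (hW : W.Finite) : (cl W : Set ℂ).Countable := by
  have : Countable (Algebra.adjoin ℚ W) := by
    rw [← Cardinal.mk_le_aleph0_iff]
    refine (Algebra.cardinalMk_adjoin_le ℚ _).trans (max_le (max_le ?_ ?_) le_rfl)
    · simp
    · exact Cardinal.le_aleph0_iff_set_countable.2 hW.countable
  exact Algebraic.countable (Algebra.adjoin ℚ W) ℂ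

theorem exists_indep (N : ℕ) : ∃ s : Finset ℝ, s.card = N ∧
    (AlgebraicIndependent.matroid ℚ ℂ).Indep ((fun x : ℝ => (x : ℂ)) '' s) := by
  classical
  induction N with
  | zero => exact ⟨∅, rfl, by simp⟩
  | succ N ih =>
    obtain ⟨s, hs, hi⟩ := ih
    have hc : ((fun x : ℝ => (x : ℂ)) ⁻¹' (cl ((fun x : ℝ => (x : ℂ)) '' s) : Set ℂ)).Countable :=
      (cl_countable (s.finite_toSet.image _)).preimage ofReal_injective
    obtain ⟨x, hx⟩ : ∃ x : ℝ, (x : ℂ) ∉ cl ((fun x : ℝ => (x : ℂ)) '' s) := by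
      by_contra h
      push Not at h
      exact Set.not_countable_univ (α := ℝ) (hc.mono fun x _ => h x)
    have hxs : x ∉ s := fun h => hx (subset_cl ⟨x, h, rfl⟩)
    refine ⟨insert x s, by rw [Finset.card_insert_of_notMem hxs, hs], ?_⟩
    rw [Finset.coe_insert, Set.image_insert_eq,
      hi.insert_indep_iff_of_notMem fun h => hx (subset_cl h)]
    exact ⟨by simp, fun h => hx (mem_cl.2 h)⟩

/-- a family of points whose real and imaginary parts are algebraically independent -/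
def Gen {ι : Type*} (u : ι → ℂ) : Prop :=
  ∀ (J : Finset ι) (W : Finset ℂ), (∀ j ∈ J, u j ∈ cl W ∧ conj (u j) ∈ cl W) →
    2 * J.card ≤ W.card

theorem Gen.injective {ι : Type*} {u : ι → ℂ} (h : Gen u) : Function.Injective u := by
  classical
  intro i j hij
  by_contra hne
  have := h {i, j} {u i, conj (u i)} (by
    intro l hl
    simp only [Finset.mem_insert, Finset.mem_singleton] at hl
    rcases hl with rfl | rfl
    · exact ⟨subset_cl (by simp), subset_cl (by simp)⟩
    · rw [← hij]; exact ⟨subset_cl (by simp), subset_cl (by simp)⟩)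
  rw [Finset.card_pair hne] at this
  have h2 := Finset.card_le_two (a := u i) (b := conj (u i))
  omega

theorem exists_gen {ι : Type*} [Fintype ι] (u₀ : ι → ℂ) {U : Set (ι → ℂ)} (hU : U ∈ 𝓝 u₀) :
    ∃ u ∈ U, Gen u := by
  classical
  obtain ⟨s, hs, hi⟩ := exists_indep (Fintype.card (ι × Bool))
  obtain ⟨e⟩ : Nonempty (ι × Bool ≃ s) := Fintype.card_eq.1 (by simp [hs])
  set θ : ι × Bool → ℝ := fun x => (e x : ℝ) with hθ
  have hθi : Function.Injective θ := Subtype.val_injective.comp e.injective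
  obtain ⟨δ, hδ, hball⟩ := Metric.mem_nhds_iff.1 hU
  have h1 : ∀ x : ℝ, ∃ q : ℚ, |x - q| < δ / 2 := fun x => exists_rat_near x (by linarith)
  choose q hq using h1
  set u : ι → ℂ := fun j => ⟨θ (j, true) + q ((u₀ j).re - θ (j, true)),
    θ (j, false) + q ((u₀ j).im - θ (j, false))⟩ with hu
  refine ⟨u, hball ?_, ?_⟩
  · rw [Metric.mem_ball, dist_pi_lt_iff hδ]
    intro j
    rw [dist_comm, dist_eq_norm]
    refine (norm_le_abs_re_add_abs_im _).trans_lt ?_
    have a1 := hq ((u₀ j).re - θ (j, true))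
    have a2 := hq ((u₀ j).im - θ (j, false))
    simp only [hu, sub_re, sub_im, ← sub_sub]
    linarith
  · intro J W hJ
    have hsub : (fun x : ℝ => (x : ℂ)) '' (θ '' ((J ×ˢ (Finset.univ : Finset Bool) : Finset _))) ⊆
        (AlgebraicIndependent.matroid ℚ ℂ).closure W := by
      rintro _ ⟨_, ⟨⟨j, b⟩, hjb, rfl⟩, rfl⟩
      have hj : j ∈ J := by simpa using hjb
      rw [← mem_cl]
      cases b
      · have a1 := im_mem_cl (hJ j hj).1 (hJ j hj).2
        have a2 := sub_mem a1 (rat_mem_cl W (q ((u₀ j).im - θ (j, false))))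
        simpa [hu] using a2
      · have a1 := re_mem_cl (hJ j hj).1 (hJ j hj).2
        have a2 := sub_mem a1 (rat_mem_cl W (q ((u₀ j).re - θ (j, true))))
        simpa [hu] using a2
    have hind := hi.subset (Set.image_mono
      (show θ '' ((J ×ˢ (Finset.univ : Finset Bool) : Finset _)) ⊆ s by
        rintro _ ⟨x, -, rfl⟩; exact (e x).2))
    have h2 := hind.encard_le_eRk_of_subset hsub
    rw [Matroid.eRk_closure_eq, ofReal_injective.encard_image, hθi.encard_image,
      Set.encard_coe_eq_coe_finsetCard] at h2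
    have h3 := h2.trans (Matroid.eRk_le_encard _ _)
    rw [Set.encard_coe_eq_coe_finsetCard, Finset.card_product] at h3
    have h4 : J.card * (Finset.univ : Finset Bool).card ≤ W.card := by exact_mod_cast h3
    simp only [Finset.card_univ, Fintype.card_bool] at h4
    omega

end Pool.Agent.P.MP_32bf8a_an.PR
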