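import Pool.Agent.P.MP_32bf8a_an.PR.Circle

/-!
Points in a small cluster at the origin: the problem for self reciprocal polynomials of degree `δ`
degenerates to the phase retrieval problem in degree `δ / 2`.
-/

open Filter Topology Complex Polynomial
open scoped ComplexConjugate

namespace Pool.Agent.P.MP_32bf8a_an.PR

/-- evaluation of a coefficient vector -/
noncomputable def ev (d : ℕ) (z : ℂ) : (Fin (d + 1) → ℂ) →ₗ[ℝ] ℂ where
  toFun A := ∑ a, A a * z ^ (a : ℕ)
  map_add' A B := by simp [add_mul, Finset.sum_add_distrib]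
  map_smul' c A := by simp [Finset.mul_sum, mul_assoc]

/-- the top coefficient -/
noncomputable def top (d : ℕ) : (Fin (d + 1) → ℂ) →ₗ[ℝ] ℂ := LinearMap.proj (Fin.last d)

theorem ev_coeff {d : ℕ} {P : ℂ[X]} (h : P.natDegree ≤ d) (z : ℂ) :
    ev d z (fun a => P.coeff a) = P.eval z := by
  rw [eval_eq_sum_range' (Nat.lt_succ_of_le h), Finset.sum_range]
  rfl

theorem exists_pol {d : ℕ} (A : Fin (d + 1) → ℂ) :
    ∃ P : ℂ[X], P.natDegree ≤ d ∧ A = fun a : Fin (d + 1) => P.coeff a := by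
  refine ⟨ofFn (d + 1) A, Nat.le_of_lt_succ (ofFn_natDegree_lt (by omega) A), ?_⟩
  funext a
  rw [ofFn_coeff_eq_val_of_lt A a.2]

theorem dep_coeff_iff {d : ℕ} {P Q : ℂ[X]} (hP : P.natDegree ≤ d) (hQ : Q.natDegree ≤ d) :
    Dep (fun a : Fin (d + 1) => P.coeff a) (fun a : Fin (d + 1) => Q.coeff a) ↔ Dep P Q := by
  constructor
  · rintro ⟨a, b, hab, h⟩
    refine ⟨a, b, hab, ?_⟩
    ext n
    rcases le_or_gt n d with hn | hn
    · simpa using congrFun h ⟨n, by omega⟩
    · simp [coeff_eq_zero_of_natDegree_lt (hP.trans_lt hn),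
        coeff_eq_zero_of_natDegree_lt (hQ.trans_lt hn)]
  · rintro ⟨a, b, hab, h⟩
    refine ⟨a, b, hab, ?_⟩
    funext n
    simpa using congrArg (fun f : ℂ[X] => f.coeff n) h

theorem prp_iff {d : ℕ} {b : Prop} {ι : Type*} {u : ι → ℂ} {J : Finset ι} :
    PRP d b u J ↔ ∀ A B : Fin (d + 1) → ℂ,
      (∀ j ∈ J, (ev d (u j) A * conj (ev d (u j) B)).im = 0) →
      (b → (top d A * conj (top d B)).im = 0) → Dep A B := by
  constructor
  · intro h A B h1 h2
    obtain ⟨P, hP, rfl⟩ := exists_pol A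
    obtain ⟨Q, hQ, rfl⟩ := exists_pol B
    rw [dep_coeff_iff hP hQ]
    refine h P Q hP hQ (fun j hj => ?_) h2
    rw [← ev_coeff hP, ← ev_coeff hQ]
    exact h1 j hj
  · intro h P Q hP hQ h1 h2
    rw [← dep_coeff_iff hP hQ]
    refine h _ _ (fun j hj => ?_) h2
    rw [ev_coeff hP, ev_coeff hQ]
    exact h1 j hj

theorem PRP.eventually {d : ℕ} {ι : Type*} [Fintype ι] {u₀ : ι → ℂ}
    (h : PRP d True u₀ Finset.univ) : ∀ᶠ u in 𝓝 u₀, PRP d True u Finset.univ := by
  have := eventually_dep (T := ι → ℂ) (ι := Option ι)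
    (fun u j => j.elim (top d) fun j => ev d (u j)) (by
      rintro (_ | j)
      · simp only [Option.elim, top, LinearMap.proj_apply]
        fun_prop
      · simp only [Option.elim, ev, LinearMap.coe_mk, AddHom.coe_mk]
        fun_prop) u₀ (fun p q hpq =>
      prp_iff.1 h p q (fun j _ => hpq (some j)) fun _ => hpq none)
  refine this.mono fun u hu => prp_iff.2 fun A B h1 h2 => hu A B ?_
  rintro (_ | j)
  · exact h2 trivial
  · exact h1 j (Finset.mem_univ j)

/-- value at `ε z` of the self reciprocal polynomial with scaled low coefficients `A` -/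
noncomputable def phi (δ : ℕ) (ε : ℝ) (z : ℂ) : (Fin (δ / 2 + 1) → ℂ) →ₗ[ℝ] ℂ where
  toFun A := ∑ a, (A a * z ^ (a : ℕ) +
    if 2 * (a : ℕ) < δ then conj (A a) * (ε : ℂ) ^ (δ - 2 * a) * z ^ (δ - a) else 0)
  map_add' A B := by
    rw [← Finset.sum_add_distrib]
    refine Finset.sum_congr rfl fun a _ => ?_
    split_ifs <;> simp only [Pi.add_apply, map_add] <;> ring
  map_smul' c A := by
    rw [RingHom.id_apply, real_smul, Finset.mul_sum]
    refine Finset.sum_congr rfl fun a _ => ?_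
    split_ifs <;> simp only [Pi.smul_apply, real_smul, map_mul, conj_ofReal] <;> ring

theorem phi_zero (δ : ℕ) (z : ℂ) (A : Fin (δ / 2 + 1) → ℂ) : phi δ 0 z A = ev (δ / 2) z A := by
  simp only [phi, ev, LinearMap.coe_mk, AddHom.coe_mk]
  refine Finset.sum_congr rfl fun a _ => ?_
  split_ifs with h
  · rw [ofReal_zero, zero_pow (by omega)]; simp
  · simp

theorem coeff_of_st {δ a : ℕ} {p : ℂ[X]} (h : st δ p = p) (ha : a ≤ δ) :
    p.coeff a = conj (p.coeff (δ - a)) := by
  rw [← coeff_st p ha, h]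

theorem phi_coeff {δ : ℕ} {p : ℂ[X]} (hp : p.natDegree ≤ δ) (h : st δ p = p) (ε : ℝ) (z : ℂ) :
    phi δ ε z (fun a => p.coeff a * (ε : ℂ) ^ (a : ℕ)) = p.eval (ε * z) := by
  set f : ℕ → ℂ := fun n => p.coeff n * (ε * z) ^ n with hf
  have h1 : phi δ ε z (fun a => p.coeff a * (ε : ℂ) ^ (a : ℕ)) =
      ∑ a ∈ Finset.range (δ / 2 + 1), (f a + if 2 * a < δ then f (δ - a) else 0) := by
    rw [Finset.sum_range]
    simp only [phi, LinearMap.coe_mk, AddHom.coe_mk]
    refine Finset.sum_congr rfl fun a _ => ?_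
    split_ifs with ha
    · have e1 : δ - (a : ℕ) = a + (δ - 2 * a) := by omega
      have e2 := coeff_of_st h (a := δ - a) (by omega)
      rw [show δ - (δ - (a : ℕ)) = a by omega] at e2
      simp only [hf, map_mul, map_pow, conj_ofReal, mul_pow, e2]
      rw [show (ε : ℂ) ^ (δ - (a : ℕ)) = ε ^ (a : ℕ) * ε ^ (δ - 2 * a) by rw [← pow_add, ← e1]]
      ring
    · simp only [hf, mul_pow]; ring
  rw [h1, eval_eq_sum_range' (Nat.lt_succ_of_le hp), Finset.sum_add_distrib,
    ← Finset.sum_range_add_sum_Ico _ (show δ / 2 + 1 ≤ δ + 1 by omega), ← Finset.sum_filter]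
  congr 1
  refine Finset.sum_nbij' (fun a => δ - a) (fun a => δ - a) ?_ ?_ ?_ ?_ ?_
  · intro a ha
    simp only [Finset.mem_filter, Finset.mem_range, Finset.mem_Ico] at ha ⊢
    omega
  · intro a ha
    simp only [Finset.mem_filter, Finset.mem_range, Finset.mem_Ico] at ha ⊢
    omega
  · intro a ha
    simp only [Finset.mem_filter, Finset.mem_range] at ha ⊢
    omega
  · intro a ha
    simp only [Finset.mem_Ico] at ha ⊢
    omega
  · intro a _
    rfl

theorem dep_of_low {δ : ℕ} {p q : ℂ[X]} (hp : p.natDegree ≤ δ) (hq : q.natDegree ≤ δ)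
    (h1 : st δ p = p) (h2 : st δ q = q) {ε : ℝ} (hε : ε ≠ 0)
    (h : Dep (fun a : Fin (δ / 2 + 1) => p.coeff a * (ε : ℂ) ^ (a : ℕ))
      (fun a : Fin (δ / 2 + 1) => q.coeff a * (ε : ℂ) ^ (a : ℕ))) : Dep p q := by
  obtain ⟨a, b, hab, h⟩ := h
  refine ⟨a, b, hab, ?_⟩
  have low : ∀ n, n ≤ δ / 2 → a * p.coeff n + b * q.coeff n = 0 := by
    intro n hn
    have e1 := congrFun h ⟨n, by omega⟩
    simp only [Pi.add_apply, Pi.smul_apply, real_smul, Pi.zero_apply] at e1
    have e2 : (ε : ℂ) ^ n ≠ 0 := pow_ne_zero _ (by exact_mod_cast hε)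
    apply mul_right_cancel₀ e2
    linear_combination e1
  ext n
  simp only [coeff_add, coeff_smul, real_smul, coeff_zero]
  rcases le_or_gt n (δ / 2) with hn | hn
  · exact low n hn
  rcases le_or_gt n δ with hn' | hn'
  · have e1 := congrArg conj (low (δ - n) (by omega))
    rw [coeff_of_st h1 hn', coeff_of_st h2 hn']
    simpa using e1
  · simp [coeff_eq_zero_of_natDegree_lt (hp.trans_lt hn'),
      coeff_eq_zero_of_natDegree_lt (hq.trans_lt hn')]

theorem eventually_real {δ : ℕ} {ι : Type*} {u : ι → ℂ} {J : Finset ι}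
    (h : PRP (δ / 2) (Even δ) u J) : ∀ᶠ ε : ℝ in 𝓝 0, ε ≠ 0 → ∀ p q : ℂ[X], p.natDegree ≤ δ →
      q.natDegree ≤ δ → st δ p = p → st δ q = q →
      (∀ j ∈ J, (p.eval (ε * u j) * conj (q.eval (ε * u j))).im = 0) → Dep p q := by
  classical
  have := eventually_dep (T := ℝ) (ι := Option J)
    (fun ε j => j.elim (if Even δ then top (δ / 2) else 0) fun j => phi δ ε (u j)) (by
      rintro (_ | j)
      · simp only [Option.elim]
        split_ifs
        · simp only [top, LinearMap.proj_apply]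
          fun_prop
        · simp only [LinearMap.zero_apply]
          fun_prop
      · simp only [Option.elim, phi, LinearMap.coe_mk, AddHom.coe_mk]
        refine continuous_finsetSum _ fun a _ => ?_
        split_ifs <;> fun_prop) 0 (fun p q hpq => by
      refine prp_iff.1 h p q (fun j hj => ?_) fun he => ?_
      · simpa only [Option.elim, phi_zero] using hpq (some ⟨j, hj⟩)
      · simpa only [Option.elim, he, if_true] using hpq none)
  refine this.mono fun ε hε h0 p q hp hq h1 h2 hJ => dep_of_low hp hq h1 h2 h0 (hε _ _ ?_)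
  rintro (_ | j)
  · simp only [Option.elim]
    split_ifs with he
    · obtain ⟨d, hd⟩ := he
      have e0 : δ - δ / 2 = δ / 2 := by omega
      have e1 := coeff_of_st h1 (a := δ / 2) (by omega)
      have e2 := coeff_of_st h2 (a := δ / 2) (by omega)
      rw [e0] at e1 e2
      have e3 := conj_eq_iff_im.1 e1.symm
      have e4 := conj_eq_iff_im.1 e2.symm
      simp only [top, LinearMap.proj_apply, Fin.val_last, ← ofReal_pow, map_mul, conj_ofReal,
        mul_im, mul_re, ofReal_re, ofReal_im, conj_re, conj_im, e3, e4]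
      ring
    · simp
  · simp only [Option.elim]
    rw [phi_coeff hp h1, phi_coeff hq h2]
    exact hJ j j.2

/-- together with the unit circle, the points `c j` do phase retrieval in degree `D` -/
def CL (D : ℕ) {ι : Type*} (c : ι → ℂ) : Prop :=
  ∀ P Q : ℂ[X], P.natDegree ≤ D → Q.natDegree ≤ D → P * st D Q = st D P * Q →
    (∀ j, (P.eval (c j) * conj (Q.eval (c j))).im = 0) → Dep P Q

theorem cluster (D : ℕ) {ι : Type*} [Fintype ι] {u : ι → ℂ} (hu : Function.Injective u)
    (h : ∀ δ ≤ D, ∀ J : Finset ι, Fintype.card ι + δ ≤ J.card + D → PRP (δ / 2) (Even δ) u J) :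
    ∃ c : ι → ℂ, CL D c := by
  classical
  have h1 : ∀ᶠ ε : ℝ in 𝓝 0, ∀ x : Fin (D + 1) × Finset ι,
      Fintype.card ι + x.1 ≤ x.2.card + D → ε ≠ 0 → ∀ p q : ℂ[X], p.natDegree ≤ x.1 →
      q.natDegree ≤ x.1 → st x.1 p = p → st x.1 q = q →
      (∀ j ∈ x.2, (p.eval (ε * u j) * conj (q.eval (ε * u j))).im = 0) → Dep p q := by
    rw [eventually_all]
    rintro ⟨δ, J⟩
    by_cases hc : Fintype.card ι + δ ≤ J.card + D
    · exact (eventually_real (h δ (Nat.le_of_lt_succ δ.2) J hc)).mono fun ε hε _ => hε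
    · exact Eventually.of_forall fun ε h => absurd h hc
  obtain ⟨ε, hε, h0⟩ :=
    ((h1.filter_mono (nhdsWithin_le_nhds (s := {0}ᶜ))).and self_mem_nhdsWithin).exists
  have h0' : ε ≠ 0 := h0
  refine ⟨fun j => ε * u j, fun P Q hP hQ hid hc => ?_⟩
  by_contra hdep
  obtain ⟨g, p, q, δ, hg, hgd, hp, hq, s1, s2, rfl, rfl⟩ := factor hP hQ hid hdep
  set J : Finset ι := Finset.univ.filter fun j => g.eval (ε * u j) ≠ 0 with hJ
  have hcard : Fintype.card ι + δ ≤ J.card + D := by
    have e1 : (Finset.univ.filter fun j => ¬ g.eval (ε * u j) ≠ 0).card ≤ g.natDegree := by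
      have hinj : Function.Injective fun j => (ε : ℂ) * u j := fun i j hij =>
        hu (mul_left_cancel₀ (by exact_mod_cast h0') hij)
      rw [← Finset.card_image_of_injective _ hinj]
      refine card_le_degree_of_subset_roots fun z hz => ?_
      simp only [Finset.mem_val, Finset.mem_image, Finset.mem_filter, Finset.mem_univ, true_and,
        ne_eq, not_not] at hz
      obtain ⟨j, hj, rfl⟩ := hz
      exact (mem_roots hg).2 hj
    have e2 := Finset.card_filter_add_card_filter_not (s := Finset.univ)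
      (fun j => g.eval (ε * u j) ≠ 0)
    rw [Finset.card_univ, ← hJ] at e2
    omega
  obtain ⟨a, b, hab, hd⟩ := hε (⟨δ, by omega⟩, J) hcard h0' p q hp hq s1 s2 (by
    intro j hj
    have e1 : g.eval (ε * u j) ≠ 0 := (Finset.mem_filter.1 hj).2
    have e2 := hc j
    simp only [eval_mul, map_mul] at e2
    rw [mul_mul_mul_comm, mul_conj, im_ofReal_mul] at e2
    exact (mul_eq_zero.1 e2).resolve_left (by simpa using e1))
  refine hdep ⟨a, b, hab, ?_⟩
  rw [← mul_smul_comm, ← mul_smul_comm, ← mul_add, hd, mul_zero]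

end Pool.Agent.P.MP_32bf8a_an.PR
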