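import Pool.Agent.P.MP_32bf8a_an.PR.Rec

/-!
The frame: the standard basis together with rows of a Cauchy matrix.
-/

open Filter Topology Complex Polynomial
open scoped ComplexConjugate

namespace Pool.Agent.P.MP_32bf8a_an.PR

theorem CL.unimodular {D : ℕ} {ι : Type*} {c : ι → ℂ} (h : CL D c) {A B : ℂ[X]}
    (hA : A.natDegree ≤ D) (hB : B.natDegree ≤ D) (s : Finset ℂ) (hs : ∀ z ∈ s, ‖z‖ = 1)
    (hc : 2 * D < s.card) (h1 : ∀ z ∈ s, ‖A.eval z‖ = ‖B.eval z‖)
    (h2 : ∀ j, ‖A.eval (c j)‖ = ‖B.eval (c j)‖) :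
    ∃ γ : ℂ, ‖γ‖ = 1 ∧ ∀ z, A.eval z = γ * B.eval z := by
  have key : ∀ z, ‖A.eval z‖ = ‖B.eval z‖ →
      ((A + B).eval z * conj ((C I * (A - B)).eval z)).im = 0 := by
    intro z hz
    have e1 : normSq (A.eval z) = normSq (B.eval z) := by
      rw [normSq_eq_norm_sq, normSq_eq_norm_sq, hz]
    simp only [eval_add, eval_mul, eval_C, eval_sub, normSq_apply, mul_im, mul_re, add_re, add_im,
      sub_re, sub_im, conj_re, conj_im, I_re, I_im] at e1 ⊢
    linear_combination -e1
  have d1 : (A + B).natDegree ≤ D := (natDegree_add_le _ _).trans (max_le hA hB)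
  have d2 : (C I * (A - B)).natDegree ≤ D :=
    (natDegree_C_mul_le _ _).trans ((natDegree_sub_le _ _).trans (max_le hA hB))
  obtain ⟨a, b, hab, hd⟩ := h _ _ d1 d2
    (circle_identity d1 d2 s hs hc fun z hz => key z (h1 z hz)) fun j => key _ (h2 j)
  have h0 : (a : ℂ) + b * I ≠ 0 := by
    intro h3
    have e1 := congrArg re h3
    have e2 := congrArg im h3
    simp at e1 e2
    tauto
  refine ⟨-conj ((a : ℂ) + b * I) / (a + b * I), ?_, fun z => ?_⟩
  · rw [norm_div, norm_neg, RCLike.norm_conj, div_self (norm_ne_zero_iff.2 h0)]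
  · have e1 := congrArg (fun f : ℂ[X] => f.eval z) hd
    have e2 : ∀ (r : ℝ) (f : ℂ[X]), r • f = C (r : ℂ) * f := by
      intro r f; ext n; simp
    simp only [e2, eval_add, eval_mul, eval_C, eval_sub, eval_zero] at e1
    simp only [map_add, map_mul, conj_ofReal, conj_I]
    field_simp
    linear_combination e1

theorem exists_frame {n k : ℕ} (hk : 2 ≤ k) (hn : k ≤ n) {ι : Type*} {c : ι → ℂ} [Fintype ι]
    (hc : CL (k - 1) c) :
    ∃ f : Fin n ⊕ (Fin (k - 1) ⊕ ι) → EuclideanSpace ℂ (Fin n),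
      Submodule.span ℂ (Set.range f) = ⊤ ∧
      ∀ x y : EuclideanSpace ℂ (Fin n), (Finset.univ.filter fun i => x i ≠ 0).card ≤ k →
        (∀ j, ‖inner ℂ (f j) x‖ = ‖inner ℂ (f j) y‖) → ∃ γ : ℂ, ‖γ‖ = 1 ∧ x = γ • y := by
  classical
  obtain ⟨η, hη, hη'⟩ := exists_circle_points (Finset.univ.image c)
  set v : Fin n → ℂ := fun i => η i with hv
  have hvi : Function.Injective v := hη.comp Fin.val_injective
  set w : Fin (k - 1) ⊕ ι → ℂ := Sum.elim (fun l => η (n + l)) c with hw
  have hwv : ∀ t i, w t ≠ v i := by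
    rintro (l | j) i h
    · have := hη h
      omega
    · exact (hη' i).2 (Finset.mem_image.2 ⟨j, Finset.mem_univ _, h⟩)
  refine ⟨Sum.elim (fun i => EuclideanSpace.single i 1)
    (fun t => WithLp.toLp 2 fun i => conj (w t - v i)⁻¹), ?_, ?_⟩
  · rw [eq_top_iff, ← (EuclideanSpace.basisFun (Fin n) ℂ).toBasis.span_eq]
    refine Submodule.span_mono ?_
    rintro _ ⟨i, rfl⟩
    exact ⟨Sum.inl i, by simp⟩
  intro x y hx hxy
  have h1 : ∀ i, ‖x i‖ = ‖y i‖ := fun i => by
    simpa [EuclideanSpace.inner_single_left] using hxy (Sum.inl i)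
  have h2 : ∀ t, ‖∑ i, (w t - v i)⁻¹ * x i‖ = ‖∑ i, (w t - v i)⁻¹ * y i‖ := fun t => by
    have := hxy (Sum.inr t)
    simpa [PiLp.inner_apply, mul_comm] using this
  obtain ⟨S, hS, -, hSc⟩ := Finset.exists_subsuperset_card_eq
    (Finset.subset_univ (Finset.univ.filter fun i => x i ≠ 0)) hx (by simpa using hn)
  have hx0 : ∀ i, i ∉ S → x i = 0 := by
    intro i hi
    by_contra h
    exact hi (hS (by simpa using h))
  have hy0 : ∀ i, i ∉ S → y i = 0 := by
    intro i hi
    rw [← norm_eq_zero, ← h1, hx0 i hi, norm_zero]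
  have hinj : Set.InjOn v S := hvi.injOn
  set T : EuclideanSpace ℂ (Fin n) → ℂ[X] := fun x =>
    Lagrange.interpolate S v fun i => x i / Lagrange.nodalWeight S v i with hT
  have hdeg : ∀ x, (T x).natDegree ≤ k - 1 := by
    intro x
    have := Lagrange.degree_interpolate_lt (fun i => x i / Lagrange.nodalWeight S v i) hinj
    rw [hSc] at this
    by_cases h0 : T x = 0
    · rw [h0]; simp
    · have := (natDegree_lt_iff_degree_lt h0).2 this
      omega
  have hnode : ∀ x, ∀ i ∈ S, (T x).eval (v i) = x i / Lagrange.nodalWeight S v i :=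
    fun x i hi => Lagrange.eval_interpolate_at_node _ hinj hi
  have hoff : ∀ x : EuclideanSpace ℂ (Fin n), (∀ i, i ∉ S → x i = 0) → ∀ t, (T x).eval (w t) =
      (Lagrange.nodal S v).eval (w t) * ∑ i, (w t - v i)⁻¹ * x i := by
    intro x hx t
    rw [hT]
    simp only
    rw [Lagrange.eval_interpolate_not_at_node _ fun i _ => hwv t i]
    congr 1
    rw [← Finset.sum_subset (Finset.subset_univ S) fun i _ hi => by rw [hx i hi, mul_zero]]
    refine Finset.sum_congr rfl fun i hi => ?_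
    have := Lagrange.nodalWeight_ne_zero hinj hi
    field_simp
  have hw' : ∀ t, ‖(T x).eval (w t)‖ = ‖(T y).eval (w t)‖ := by
    intro t
    rw [hoff x hx0, hoff y hy0, norm_mul, norm_mul, h2]
  obtain ⟨γ, hγ, h3⟩ := hc.unimodular (hdeg x) (hdeg y)
    (S.image v ∪ Finset.univ.image fun l : Fin (k - 1) => η (n + l)) (by
      intro z hz
      simp only [Finset.mem_union, Finset.mem_image] at hz
      rcases hz with ⟨i, -, rfl⟩ | ⟨l, -, rfl⟩
      · exact (hη' _).1
      · exact (hη' _).1) (by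
      rw [Finset.card_union_of_disjoint, Finset.card_image_of_injective _ hvi,
        Finset.card_image_of_injective, hSc]
      · simp only [Finset.card_univ, Fintype.card_fin]; omega
      · intro l l' h
        have := hη h
        exact Fin.ext (by omega)
      · rw [Finset.disjoint_left]
        intro z hz hz'
        obtain ⟨i, -, rfl⟩ := Finset.mem_image.1 hz
        obtain ⟨l, -, hl⟩ := Finset.mem_image.1 hz'
        exact hwv (Sum.inl l) i hl) (by
      intro z hz
      simp only [Finset.mem_union, Finset.mem_image] at hz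
      rcases hz with ⟨i, hi, rfl⟩ | ⟨l, -, rfl⟩
      · rw [hnode x i hi, hnode y i hi, norm_div, norm_div, h1]
      · exact hw' (Sum.inl l)) fun j => hw' (Sum.inr j)
  refine ⟨γ, hγ, ?_⟩
  ext i
  rw [PiLp.smul_apply, smul_eq_mul]
  by_cases hi : i ∈ S
  · have e1 := h3 (v i)
    rw [hnode x i hi, hnode y i hi] at e1
    have := Lagrange.nodalWeight_ne_zero hinj hi
    field_simp at e1
    rw [e1]
  · rw [hx0 i hi, hy0 i hi, mul_zero]

end Pool.Agent.P.MP_32bf8a_an.PR
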