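import Pool.Agent.P.MP_32bf8a_an.PR.Open
import Pool.Agent.P.MP_32bf8a_an.PR.Closure

/-!
Generic points of the plane do phase retrieval for polynomials of degree at most `d` as soon as
there are `4 d` of them (the point at infinity may be one of them).
-/

open Filter Topology Complex Polynomial
open scoped ComplexConjugate

namespace Pool.Agent.P.MP_32bf8a_an.PR

/-- phase retrieval for polynomials of degree at most `d` from the points `u j`, `j ∈ J`, and,
when `b` holds, the point at infinity -/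
def PRP (d : ℕ) (b : Prop) {ι : Type*} (u : ι → ℂ) (J : Finset ι) : Prop :=
  ∀ P Q : ℂ[X], P.natDegree ≤ d → Q.natDegree ≤ d →
    (∀ j ∈ J, (P.eval (u j) * conj (Q.eval (u j))).im = 0) →
    (b → (P.coeff d * conj (Q.coeff d)).im = 0) → Dep P Q

theorem eval_mem_cl {W : Set ℂ} {f : ℂ[X]} (hc : ∀ n, f.coeff n ∈ cl W) {z : ℂ}
    (hz : z ∈ cl W) : f.eval z ∈ cl W := by
  rw [eval_eq_sum_range]
  exact sum_mem fun i _ => mul_mem (hc i) (pow_mem hz i)

theorem conj_eval (f : ℂ[X]) (z : ℂ) : conj (f.eval z) = (f.map conj).eval (conj z) := by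
  rw [eval_map, eval₂_at_apply]

theorem point_alt {G : Set ℂ} {A B : ℂ[X]} (hA : ∀ n, A.coeff n ∈ cl G)
    (hA' : ∀ n, conj (A.coeff n) ∈ cl G) (hB' : ∀ n, conj (B.coeff n) ∈ cl G)
    (hB : ∀ n, B.coeff n ∈ cl G)
    (a0 : A.coeff 0 = 1) (b0 : B.coeff 0 = 0) {w : ℂ}
    (hw : A.eval w * conj (A.eval w) = B.eval w * conj (B.eval w)) :
    w ∈ cl G ∧ conj w ∈ cl (insert (conj w) G) ∨ conj w ∈ cl (insert w G) := by
  by_cases h : C (A.eval w) * A.map conj - C (B.eval w) * B.map conj = 0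
  · left
    refine ⟨?_, subset_cl (by simp)⟩
    have h1 := congrArg (fun f : ℂ[X] => f.coeff 0) h
    simp only [coeff_sub, coeff_C_mul, coeff_map, a0, b0, map_one, map_zero, mul_one, mul_zero,
      sub_zero, coeff_zero] at h1
    refine root_mem_cl ?_ hA h1
    rintro rfl
    simp at a0
  · right
    have hm : cl G ≤ cl (insert w G) := cl_mono (Set.subset_insert _ _)
    have hw' : w ∈ cl (insert w G) := subset_cl (by simp)
    refine root_mem_cl h (fun n => ?_) ?_
    · simp only [coeff_sub, coeff_C_mul, coeff_map]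
      exact sub_mem (mul_mem (eval_mem_cl (fun n => hm (hA n)) hw') (hm (hA' n)))
        (mul_mem (eval_mem_cl (fun n => hm (hB n)) hw') (hm (hB' n)))
    · simp only [eval_sub, eval_mul, eval_C, ← conj_eval]
      exact sub_eq_zero.2 hw

theorem Gen.card_le {ι : Type*} {u : ι → ℂ} (hu : Gen u) (J : Finset ι) (G : Finset ℂ)
    {A B : ℂ[X]} (hA : ∀ n, A.coeff n ∈ cl G)
    (hA' : ∀ n, conj (A.coeff n) ∈ cl G) (hB' : ∀ n, conj (B.coeff n) ∈ cl G)
    (hB : ∀ n, B.coeff n ∈ cl G) (a0 : A.coeff 0 = 1) (b0 : B.coeff 0 = 0) {u₀ : ℂ}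
    (h0 : ∀ W, u₀ ∈ cl W) (h0' : ∀ W, conj u₀ ∈ cl W)
    (hw : ∀ j ∈ J, A.eval (u j - u₀) * conj (A.eval (u j - u₀)) =
      B.eval (u j - u₀) * conj (B.eval (u j - u₀))) : J.card ≤ G.card := by
  classical
  set t : ι → ℂ := fun j => if u j - u₀ ∈ cl G then conj (u j - u₀) else u j - u₀ with ht
  have h1 := hu J (G ∪ J.image t) (by
    intro j hj
    have hG : cl G ≤ cl ((G ∪ J.image t : Finset ℂ) : Set ℂ) := cl_mono (by simp)
    have htj : t j ∈ cl ((G ∪ J.image t : Finset ℂ) : Set ℂ) :=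
      subset_cl (by simp only [Finset.coe_union, Finset.coe_image]; exact Or.inr ⟨j, hj, rfl⟩)
    have key : u j - u₀ ∈ cl ((G ∪ J.image t : Finset ℂ) : Set ℂ) ∧
        conj (u j - u₀) ∈ cl ((G ∪ J.image t : Finset ℂ) : Set ℂ) := by
      by_cases h : u j - u₀ ∈ cl G
      · exact ⟨hG h, by simpa only [ht, h, if_true] using htj⟩
      · have h2 : u j - u₀ ∈ cl ((G ∪ J.image t : Finset ℂ) : Set ℂ) := by
          simpa only [ht, h, if_false] using htj
        refine ⟨h2, ?_⟩
        rcases point_alt hA hA' hB' hB a0 b0 (hw j hj) with h3 | h3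
        · exact absurd h3.1 h
        · refine cl_le ?_ h3
          rintro z (rfl | hz)
          · exact h2
          · exact hG (subset_cl hz)
    constructor
    · simpa using add_mem key.1 (h0 _)
    · simpa using add_mem key.2 (h0' _))
  have h2 := Finset.card_union_le G (J.image t)
  have h3 := Finset.card_image_le (s := J) (f := t)
  omega

theorem exists_rat_point {P Q : ℂ[X]} (h : ¬ Dep P Q) :
    ∃ a b : ℚ, (P.eval (a + b * I) * conj (Q.eval (a + b * I))).im ≠ 0 := by
  by_contra hn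
  push Not at hn
  have hall : ∀ z : ℂ, (P.eval z * conj (Q.eval z)).im = 0 := by
    have hd : DenseRange fun x : ℚ × ℚ => ((x.1 : ℂ) + x.2 * I) := by
      have h1 : DenseRange (Prod.map ((↑) : ℚ → ℝ) ((↑) : ℚ → ℝ)) :=
        Rat.denseRange_cast.prodMap Rat.denseRange_cast
      have h2 : DenseRange fun x : ℝ × ℝ => ((x.1 : ℂ) + x.2 * I) :=
        Function.Surjective.denseRange fun z => ⟨(z.re, z.im), re_add_im z⟩
      have h3 := h2.comp h1 (by fun_prop)
      convert h3 using 1
      ext x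
      simp
    intro z
    refine hd.induction_on z (isClosed_eq ?_ continuous_const) fun x => hn x.1 x.2
    exact continuous_im.comp (P.continuous.mul (continuous_conj.comp Q.continuous))
  have hQ : Q ≠ 0 := by
    rintro rfl
    exact h ⟨0, 1, by simp, by simp⟩
  obtain ⟨z₀, hz₀⟩ : ∃ z₀, Q.eval z₀ ≠ 0 := by
    by_contra h1
    push Not at h1
    exact hQ (Polynomial.funext (by simpa using h1))
  obtain ⟨r, hr, hb⟩ := Metric.eventually_nhds_iff_ball.1
    (Q.continuous.continuousAt.eventually_ne hz₀)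
  have han : AnalyticOnNhd ℂ (fun z => P.eval z / Q.eval z) (Metric.ball z₀ r) := by
    refine DifferentiableOn.analyticOnNhd ?_ Metric.isOpen_ball
    exact (P.differentiable.differentiableOn).div Q.differentiable.differentiableOn hb
  have him : ∀ z ∈ Metric.ball z₀ r, (P.eval z / Q.eval z).im = 0 := by
    intro z hz
    have := hall z
    rw [div_im, ← sub_div, div_eq_zero_iff]
    simp only [mul_im, conj_re, conj_im] at this
    left
    linarith
  obtain ⟨c, hc⟩ := han.eq_const_of_im_eq_const him Metric.isOpen_ball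
    (Metric.isConnected_ball hr)
  have hcr : c.im = 0 := by
    rw [← hc z₀ (Metric.mem_ball_self hr)]; exact him z₀ (Metric.mem_ball_self hr)
  have hPQ : P - C c * Q = 0 := by
    refine Polynomial.eq_zero_of_infinite_isRoot _ ?_
    refine (infinite_of_mem_nhds z₀ (Metric.ball_mem_nhds z₀ hr)).mono fun z hz => ?_
    have h1 := hc z hz
    have h2 := hb z hz
    simp only [Set.mem_ofPred_eq, IsRoot, eval_sub, eval_mul, eval_C, ← h1]
    field_simp
    ring
  refine h ⟨1, -c.re, by simp, ?_⟩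
  have hc' : c = (c.re : ℂ) := Complex.ext (by simp) (by simp [hcr])
  rw [← hPQ, one_smul, neg_smul, sub_eq_add_neg]
  congr 2
  ext n
  rw [coeff_smul, coeff_C_mul, real_smul, ← hc']

theorem dep_of_im {P Q : ℂ[X]} (hP : P.natDegree ≤ 0) (hQ : Q.natDegree ≤ 0)
    (h : (P.coeff 0 * conj (Q.coeff 0)).im = 0) : Dep P Q := by
  by_contra hd
  obtain ⟨a, b, hab⟩ := exists_rat_point hd
  rw [eq_C_of_natDegree_le_zero hP, eq_C_of_natDegree_le_zero hQ] at hab
  simp only [eval_C] at hab
  exact hab h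

theorem exists_unit_mul {x y : ℂ} (h : ‖x‖ = ‖y‖) : ∃ c : ℂ, c * conj c = 1 ∧ c * y = x := by
  by_cases hy : y = 0
  · refine ⟨1, by simp, ?_⟩
    rw [hy, norm_zero, norm_eq_zero] at h
    simp [hy, h]
  · refine ⟨x / y, ?_, by field_simp⟩
    rw [mul_conj', norm_div, h, div_self (norm_ne_zero_iff.2 hy)]
    simp

theorem coeff_taylor_top {f : ℂ[X]} {d : ℕ} (h : f.natDegree ≤ d) (r : ℂ) :
    (taylor r f).coeff d = f.coeff d := by
  rcases h.eq_or_lt with h | h
  · rw [← h, coeff_taylor_natDegree, leadingCoeff]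
  · rw [coeff_eq_zero_of_natDegree_lt h, coeff_eq_zero_of_natDegree_lt (by simpa using h)]

theorem normal_form {d : ℕ} {P Q : ℂ[X]} (hP : P.natDegree ≤ d) (hQ : Q.natDegree ≤ d)
    {u₀ : ℂ} (h : (P.eval u₀ * conj (Q.eval u₀)).im ≠ 0) :
    ∃ A B : ℂ[X], A.natDegree ≤ d ∧ B.natDegree ≤ d ∧ A.coeff 0 = 1 ∧ B.coeff 0 = 0 ∧
      (∀ z, (P.eval z * conj (Q.eval z)).im = 0 → ‖A.eval (z - u₀)‖ = ‖B.eval (z - u₀)‖) ∧
      ((P.coeff d * conj (Q.coeff d)).im = 0 → ‖A.coeff d‖ = ‖B.coeff d‖) := by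
  set α := P.eval u₀ with hα
  set β := Q.eval u₀ with hβ
  set m : ℂ := conj β * α - conj α * β with hm
  have hm0 : m ≠ 0 := by
    intro h1
    apply h
    have := congrArg Complex.im h1
    simp only [hm, mul_im, sub_im, conj_re, conj_im, zero_im] at this ⊢
    linarith
  have key : ∀ x y : ℂ, (x * conj y).im = 0 →
      ‖conj β / m * x - conj α / m * y‖ = ‖β / m * x - α / m * y‖ := by
    intro x y hxy
    have h1 : conj β / m * x - conj α / m * y = (conj β * x - conj α * y) / m := by ring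
    have h2 : β / m * x - α / m * y = (β * x - α * y) / m := by ring
    rw [h1, h2, norm_div, norm_div]
    congr 1
    rw [← sq_eq_sq₀ (norm_nonneg _) (norm_nonneg _), ← normSq_eq_norm_sq, ← normSq_eq_norm_sq]
    simp only [normSq_apply, mul_im, mul_re, sub_re, sub_im, conj_re, conj_im] at hxy ⊢
    linear_combination (4 * (β.re * α.im - β.im * α.re)) * hxy
  have hdeg : ∀ a b : ℂ, (C a * P - C b * Q).natDegree ≤ d := fun a b =>
    (natDegree_sub_le _ _).trans
      (max_le ((natDegree_C_mul_le _ _).trans hP) ((natDegree_C_mul_le _ _).trans hQ))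
  refine ⟨taylor u₀ (C (conj β / m) * P - C (conj α / m) * Q),
    taylor u₀ (C (β / m) * P - C (α / m) * Q), by rw [natDegree_taylor]; exact hdeg _ _,
    by rw [natDegree_taylor]; exact hdeg _ _,
    ?_, ?_, ?_, ?_⟩
  · simp only [taylor_coeff_zero, eval_sub, eval_mul, eval_C, ← hα, ← hβ]
    field_simp
    rfl
  · simp only [taylor_coeff_zero, eval_sub, eval_mul, eval_C, ← hα, ← hβ]
    ring
  · intro z hz
    simp only [taylor_eval_sub, eval_sub, eval_mul, eval_C]
    exact key _ _ hz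
  · intro hz
    rw [coeff_taylor_top (hdeg _ _), coeff_taylor_top (hdeg _ _)]
    simp only [coeff_sub, coeff_C_mul]
    exact key _ _ hz

theorem Gen.prp {ι : Type*} {u : ι → ℂ} (hu : Gen u) (d : ℕ) (b : Prop) (J : Finset ι)
    (h1 : b → 4 * d ≤ J.card + 1) (h2 : ¬ b → 4 * d ≤ J.card ∧ 1 ≤ J.card) : PRP d b u J := by
  classical
  intro P Q hP hQ hJ hb
  rcases Nat.eq_zero_or_pos d with rfl | hd
  · refine dep_of_im hP hQ ?_
    by_cases h : b
    · exact hb h
    · obtain ⟨j, hj⟩ := Finset.card_pos.1 (h2 h).2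
      have := hJ j hj
      rwa [eq_C_of_natDegree_le_zero hP, eq_C_of_natDegree_le_zero hQ, eval_C, eval_C] at this
  by_contra hdep
  obtain ⟨x, y, hxy⟩ := exists_rat_point hdep
  obtain ⟨A, B, hA, hB, a0, b0, hz, htop⟩ := normal_form hP hQ hxy
  have h0 : ∀ W, (x : ℂ) + y * I ∈ cl W := fun W =>
    add_mem (rat_mem_cl W x) (mul_mem (rat_mem_cl W y) (I_mem_cl W))
  have h0' : ∀ W, conj ((x : ℂ) + y * I) ∈ cl W := fun W => by
    simp only [map_add, map_mul, map_ratCast, conj_I]
    exact add_mem (rat_mem_cl W x) (mul_mem (rat_mem_cl W y) (neg_mem (I_mem_cl W)))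
  have main : ∀ (c : ℂ) (G : Finset ℂ), c * conj c = 1 →
      (∀ n, 1 ≤ n → n ≤ d → A.coeff n ∈ G ∧ conj (A.coeff n) ∈ G ∧ c * B.coeff n ∈ G ∧
        conj (c * B.coeff n) ∈ G) → J.card ≤ G.card := by
    intro c G hc hG
    have hall : ∀ n, A.coeff n ∈ cl G ∧ conj (A.coeff n) ∈ cl G ∧ c * B.coeff n ∈ cl G ∧
        conj (c * B.coeff n) ∈ cl G := by
      intro n
      rcases Nat.eq_zero_or_pos n with rfl | hn
      · simp [a0, b0]
      · rcases le_or_gt n d with h | h
        · obtain ⟨g1, g2, g3, g4⟩ := hG n hn h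
          exact ⟨subset_cl g1, subset_cl g2, subset_cl g3, subset_cl g4⟩
        · simp [coeff_eq_zero_of_natDegree_lt (hA.trans_lt h),
            coeff_eq_zero_of_natDegree_lt (hB.trans_lt h)]
    refine hu.card_le J G (A := A) (B := C c * B) (fun n => (hall n).1) (fun n => (hall n).2.1)
      (fun n => by rw [coeff_C_mul]; exact (hall n).2.2.2)
      (fun n => by rw [coeff_C_mul]; exact (hall n).2.2.1) a0 (by simp [b0]) h0 h0' ?_
    intro j hj
    have := hz _ (hJ j hj)
    rw [eval_mul, eval_C, map_mul, mul_mul_mul_comm, hc, one_mul, mul_conj', mul_conj', this]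
  set GA : Finset ℂ := (Finset.Icc 1 d).image (fun n => A.coeff n) ∪
    (Finset.Icc 1 d).image (fun n => conj (A.coeff n)) with hGA
  have cA : GA.card ≤ 2 * d := by
    have e1 := Finset.card_image_le (s := Finset.Icc 1 d) (f := fun n => A.coeff n)
    have e2 := Finset.card_image_le (s := Finset.Icc 1 d) (f := fun n => conj (A.coeff n))
    have e3 := Finset.card_union_le ((Finset.Icc 1 d).image (fun n => A.coeff n))
      ((Finset.Icc 1 d).image (fun n => conj (A.coeff n)))
    simp only [Nat.card_Icc] at e1 e2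
    rw [hGA]
    omega
  have mA : ∀ n, 1 ≤ n → n ≤ d → A.coeff n ∈ GA ∧ conj (A.coeff n) ∈ GA := by
    intro n h3 h4
    have : n ∈ Finset.Icc 1 d := Finset.mem_Icc.2 ⟨h3, h4⟩
    exact ⟨Finset.mem_union_left _ (Finset.mem_image_of_mem _ this),
      Finset.mem_union_right _ (Finset.mem_image_of_mem (fun n => conj (A.coeff n)) this)⟩
  have cB : ∀ (c : ℂ), ∃ GB : Finset ℂ, GB.card ≤ 2 * d - 2 ∧ ∀ n, 1 ≤ n → n < d →
      c * B.coeff n ∈ GB ∧ conj (c * B.coeff n) ∈ GB := by
    intro c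
    refine ⟨(Finset.Ico 1 d).image (fun n => c * B.coeff n) ∪
      (Finset.Ico 1 d).image (fun n => conj (c * B.coeff n)), ?_, ?_⟩
    · have e1 := Finset.card_image_le (s := Finset.Ico 1 d) (f := fun n => c * B.coeff n)
      have e2 := Finset.card_image_le (s := Finset.Ico 1 d) (f := fun n => conj (c * B.coeff n))
      have e3 := Finset.card_union_le ((Finset.Ico 1 d).image (fun n => c * B.coeff n))
        ((Finset.Ico 1 d).image (fun n => conj (c * B.coeff n)))
      simp only [Nat.card_Ico] at e1 e2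
      omega
    · intro n h3 h4
      have : n ∈ Finset.Ico 1 d := Finset.mem_Ico.2 ⟨h3, h4⟩
      exact ⟨Finset.mem_union_left _ (Finset.mem_image_of_mem _ this),
        Finset.mem_union_right _ (Finset.mem_image_of_mem (fun n => conj (c * B.coeff n)) this)⟩
  by_cases h : b
  · obtain ⟨c, hc, hcB⟩ := exists_unit_mul (htop (hb h))
    obtain ⟨GB, cGB, mGB⟩ := cB c
    have h3 := main c (GA ∪ GB) hc (by
      intro n h3 h4
      refine ⟨Finset.mem_union_left _ (mA n h3 h4).1, Finset.mem_union_left _ (mA n h3 h4).2, ?_⟩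
      rcases h4.eq_or_lt with rfl | h5
      · rw [hcB]
        exact ⟨Finset.mem_union_left _ (mA n h3 h4).1, Finset.mem_union_left _ (mA n h3 h4).2⟩
      · exact ⟨Finset.mem_union_right _ (mGB n h3 h5).1, Finset.mem_union_right _ (mGB n h3 h5).2⟩)
    have h4 := Finset.card_union_le GA GB
    have h5 := h1 h
    omega
  · obtain ⟨c, hc, hcB⟩ := exists_unit_mul (x := (‖B.coeff d‖ : ℝ)) (y := B.coeff d) (by simp)
    obtain ⟨GB, cGB, mGB⟩ := cB c
    have h3 := main c (insert (c * B.coeff d) (GA ∪ GB)) hc (by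
      intro n h3 h4
      refine ⟨Finset.mem_insert_of_mem (Finset.mem_union_left _ (mA n h3 h4).1),
        Finset.mem_insert_of_mem (Finset.mem_union_left _ (mA n h3 h4).2), ?_⟩
      rcases h4.eq_or_lt with rfl | h5
      · refine ⟨Finset.mem_insert_self _ _, ?_⟩
        rw [hcB, conj_ofReal]
        exact Finset.mem_insert_self _ _
      · exact ⟨Finset.mem_insert_of_mem (Finset.mem_union_right _ (mGB n h3 h5).1),
          Finset.mem_insert_of_mem (Finset.mem_union_right _ (mGB n h3 h5).2)⟩)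
    have h4 := Finset.card_union_le GA GB
    have h6 := Finset.card_insert_le (c * B.coeff d) (GA ∪ GB)
    have h5 := (h2 h).1
    omega

end Pool.Agent.P.MP_32bf8a_an.PR
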