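import Mathlib

/-!
Real dependence of a pair of vectors, and openness of the phase retrieval property in the
measurement functionals.
-/

open Filter Topology Complex
open scoped ComplexConjugate

namespace Pool.Agent.P.MP_32bf8a_an.PR

/-- the pair `p, q` is linearly dependent over the reals -/
def Dep {E : Type*} [AddCommGroup E] [Module ℝ E] (p q : E) : Prop :=
  ∃ a b : ℝ, (a ≠ 0 ∨ b ≠ 0) ∧ a • p + b • q = 0

theorem Dep.of_map {E F : Type*} [AddCommGroup E] [Module ℝ E] [AddCommGroup F] [Module ℝ F]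
    (f : E →ₗ[ℝ] F) {p q : E} (hf : ∀ a b : ℝ, f (a • p + b • q) = 0 → a • p + b • q = 0)
    (h : Dep (f p) (f q)) : Dep p q := by
  obtain ⟨a, b, hab, h⟩ := h
  exact ⟨a, b, hab, hf a b (by simpa using h)⟩

theorem eventually_dep {E T ι : Type*} [NormedAddCommGroup E] [NormedSpace ℝ E]
    [FiniteDimensional ℝ E] [TopologicalSpace T] (Φ : T → ι → E →ₗ[ℝ] ℂ)
    (hc : ∀ j, Continuous fun x : T × E => Φ x.1 j x.2) (t₀ : T)
    (h0 : ∀ p q, (∀ j, (Φ t₀ j p * conj (Φ t₀ j q)).im = 0) → Dep p q) :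
    ∀ᶠ t in 𝓝 t₀, ∀ p q, (∀ j, (Φ t j p * conj (Φ t j q)).im = 0) → Dep p q := by
  have : ProperSpace E := FiniteDimensional.proper ℝ E
  set C : Set (E × E) := {x | ‖x.1‖ = 1 ∧ ‖x.2‖ = 1 ∧ ∀ s : ℝ, 1 ≤ ‖x.2 - s • x.1‖} with hC
  have hcl : IsClosed C := by
    have h1 : IsClosed {x : E × E | ‖x.1‖ = 1} := isClosed_eq (by fun_prop) continuous_const
    have h2 : IsClosed {x : E × E | ‖x.2‖ = 1} := isClosed_eq (by fun_prop) continuous_const
    have h3 : IsClosed (⋂ s : ℝ, {x : E × E | 1 ≤ ‖x.2 - s • x.1‖}) :=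
      isClosed_iInter fun s => isClosed_le continuous_const (by fun_prop)
    convert h1.inter (h2.inter h3) using 1
    ext x; simp [hC]
  have hcp : IsCompact C := by
    refine Metric.isCompact_of_isClosed_isBounded hcl ?_
    refine (Metric.isBounded_closedBall (x := (0 : E × E)) (r := 1)).subset ?_
    rintro x ⟨h1, h2, -⟩
    simp [Prod.norm_def, h1, h2]
  have hev := hcp.eventually_forall_of_forall_eventually (x₀ := t₀)
    (P := fun t x => ∃ j, (Φ t j x.1 * conj (Φ t j x.2)).im ≠ 0) (by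
      rintro ⟨p, q⟩ ⟨h1, h2, h3⟩
      have : ∃ j, (Φ t₀ j p * conj (Φ t₀ j q)).im ≠ 0 := by
        by_contra hn
        push Not at hn
        obtain ⟨a, b, hab, h⟩ := h0 p q hn
        by_cases hb : b = 0
        · have ha : a ≠ 0 := by tauto
          rw [hb, zero_smul, add_zero, smul_eq_zero] at h
          rcases h with h | h
          · exact ha h
          · simp [h] at h1
        · have h4 := h3 (-(a / b))
          have h5 : q - (-(a / b)) • p = b⁻¹ • (a • p + b • q) := by
            rw [smul_add, smul_smul, smul_smul, inv_mul_cancel₀ hb, one_smul, neg_smul,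
              sub_neg_eq_add, add_comm, div_eq_inv_mul]
          simp only at h4
          rw [h5, h] at h4
          simp at h4
          linarith
      obtain ⟨j, hj⟩ := this
      have hcont : Continuous fun z : T × (E × E) =>
          (Φ z.1 j z.2.1 * conj (Φ z.1 j z.2.2)).im := by
        have a1 : Continuous fun z : T × (E × E) => Φ z.1 j z.2.1 :=
          (hc j).comp (continuous_fst.prodMk (continuous_fst.comp continuous_snd))
        have a2 : Continuous fun z : T × (E × E) => Φ z.1 j z.2.2 :=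
          (hc j).comp (continuous_fst.prodMk (continuous_snd.comp continuous_snd))
        exact continuous_im.comp (a1.mul (continuous_conj.comp a2))
      have := hcont.continuousAt (x := (t₀, (p, q))) |>.eventually_ne hj
      exact this.mono fun z hz => ⟨j, hz⟩)
  refine hev.mono fun t ht p q hpq => ?_
  by_contra hd
  have hp : p ≠ 0 := by
    rintro rfl
    exact hd ⟨1, 0, by simp, by simp⟩
  have hpn : ‖p‖ ≠ 0 := norm_ne_zero_iff.2 hp
  set p' : E := ‖p‖⁻¹ • p with hp'
  have hp1 : ‖p'‖ = 1 := by rw [hp', norm_smul, norm_inv, norm_norm, inv_mul_cancel₀ hpn]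
  have hcf : Continuous fun s : ℝ => ‖q - s • p'‖ := by fun_prop
  obtain ⟨s, hs⟩ := hcf.exists_forall_le_of_isBounded 0 (by
    refine (Metric.isBounded_closedBall (x := (0 : ℝ)) (r := 2 * ‖q‖)).subset ?_
    intro s hs
    simp only [zero_smul, sub_zero, Set.mem_ofPred_eq] at hs
    have h1 : ‖s • p'‖ ≤ ‖q‖ + ‖q - s • p'‖ := by
      have := norm_sub_le q (q - s • p')
      simpa using this
    rw [norm_smul, hp1, mul_one] at h1
    simp only [Metric.mem_closedBall, dist_zero_right]
    linarith)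
  have hq : q - s • p' ≠ 0 := by
    intro h
    refine hd ⟨-(s * ‖p‖⁻¹), 1, by simp, ?_⟩
    rw [← h, hp', smul_smul, one_smul, neg_smul, sub_eq_neg_add]
  have hqn : 0 < ‖q - s • p'‖ := norm_pos_iff.2 hq
  set r : ℝ := ‖q - s • p'‖ with hr
  have hmem : (p', r⁻¹ • (q - s • p')) ∈ C := by
    refine ⟨hp1, ?_, fun s' => ?_⟩
    · simp only
      rw [norm_smul, norm_inv, Real.norm_eq_abs, abs_of_pos hqn, inv_mul_cancel₀ hqn.ne']
    · have h1 : r⁻¹ • (q - s • p') - s' • p' = r⁻¹ • (q - (s + r * s') • p') := by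
        rw [add_smul, ← sub_sub, smul_sub r⁻¹ _ ((r * s') • p'), smul_smul r⁻¹ (r * s'), ← mul_assoc,
          inv_mul_cancel₀ hqn.ne', one_mul]
      simp only
      rw [h1, norm_smul, norm_inv, Real.norm_eq_abs, abs_of_pos hqn, inv_mul_eq_div,
        le_div_iff₀ hqn, one_mul]
      exact hs _
  obtain ⟨j, hj⟩ := ht _ hmem
  apply hj
  have := hpq j
  simp only [hp', map_smul, map_sub, real_smul, map_mul, conj_ofReal, mul_im, mul_re, sub_re,
    sub_im, ofReal_re, ofReal_im, conj_re, conj_im] at this ⊢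
  linear_combination (‖p‖⁻¹ * r⁻¹) * this

end Pool.Agent.P.MP_32bf8a_an.PR
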