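import Pool.Agent.P.MP_32bf8a_an.PR.Cluster

/-!
The recursion on the degree: `2 D - 2` points off the unit circle suffice when `D` is not a power
of two.
-/

open Filter Topology Complex Polynomial
open scoped ComplexConjugate

namespace Pool.Agent.P.MP_32bf8a_an.PR

theorem mobius {d : ℕ} {κ : Type*} [Fintype κ] {z : Option κ → ℂ}
    (h : PRP d False z Finset.univ) :
    PRP d True (fun j => (z (some j) - z none)⁻¹) Finset.univ := by
  intro P Q hP hQ h1 h2
  have hdeg : ∀ f : ℂ[X], f.natDegree ≤ d → (taylor (-z none) (reflect d f)).natDegree ≤ d := by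
    intro f hf
    rw [natDegree_taylor]
    exact natDegree_reflect_le.trans (max_le le_rfl hf)
  have h0 : ∀ f : ℂ[X], (reflect d f).eval 0 = f.coeff d := by
    intro f
    rw [← coeff_zero_eq_eval_zero, coeff_reflect, revAt_zero]
  obtain ⟨a, b, hab, hd⟩ := h _ _ (hdeg P hP) (hdeg Q hQ) (by
    intro j _
    rw [taylor_eval, taylor_eval, ← sub_eq_add_neg]
    by_cases hj : z j - z none = 0
    · rw [hj, h0, h0]; exact h2 trivial
    · rcases j with _ | j
      · exact absurd (sub_self _) hj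
      · rw [eval_reflect hP hj, eval_reflect hQ hj, map_mul, mul_mul_mul_comm, mul_conj,
          im_ofReal_mul, h1 j (Finset.mem_univ j), mul_zero]) False.elim
  refine ⟨a, b, hab, ?_⟩
  have e1 : ∀ (r : ℝ) (f : ℂ[X]), r • f = C (r : ℂ) * f := by
    intro r f; ext n; simp
  rw [e1, e1] at hd ⊢
  rw [← smul_eq_C_mul, ← smul_eq_C_mul, ← map_smul, ← map_smul, ← map_add, taylor_eq_zero,
    smul_eq_C_mul, smul_eq_C_mul, ← reflect_C_mul, ← reflect_C_mul, ← reflect_add,
    reflect_eq_zero_iff] at hd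
  exact hd

theorem exists_circle_points (F : Finset ℂ) :
    ∃ η : ℕ → ℂ, Function.Injective η ∧ ∀ i, ‖η i‖ = 1 ∧ η i ∉ F := by
  have h1 : (Metric.sphere (0 : ℂ) 1).Infinite := by
    have h2 : IsPreconnected (Metric.sphere (0 : ℂ) 1) :=
      (isConnected_sphere (by simp) 0 zero_le_one).isPreconnected
    refine h2.infinite_of_nontrivial ⟨1, by simp, -1, by simp, ?_⟩
    norm_num
  have h2 := h1.sdiff F.finite_toSet
  refine ⟨fun i => h2.natEmbedding _ i,
    Subtype.val_injective.comp (h2.natEmbedding _).injective, fun i => ?_⟩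
  obtain ⟨h3, h4⟩ := (h2.natEmbedding _ i).2
  exact ⟨mem_sphere_zero_iff_norm.1 h3, h4⟩

theorem step {D : ℕ} (hD : 2 ≤ D) {ι : Type*} [Fintype ι] (hι : Fintype.card ι + 2 = 2 * D)
    (u₀ : ι → ℂ) (h : Even D → PRP (D / 2) True u₀ Finset.univ) : ∃ c : ι → ℂ, CL D c := by
  obtain ⟨u, hu, hg⟩ := exists_gen u₀ (U := {u | Even D → PRP (D / 2) True u Finset.univ}) (by
    by_cases he : Even D
    · exact (h he).eventually.mono fun u hu _ => hu
    · exact Eventually.of_forall fun u h => absurd h he)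
  refine cluster D hg.injective fun δ hδ J hJ => ?_
  by_cases hc : δ = D ∧ Even D
  · obtain ⟨rfl, he⟩ := hc
    have : J = Finset.univ := (Finset.card_eq_iff_eq_univ J).1
      (le_antisymm (Finset.card_le_univ J) (by omega))
    subst this
    exact fun P Q hP hQ h1 h2 => hu he P Q hP hQ h1 fun _ => h2 he
  · refine hg.prp _ _ J ?_ ?_
    · intro he
      have : δ ≠ D := fun h => hc ⟨h, h ▸ he⟩
      obtain ⟨e, rfl⟩ := he
      omega
    · intro he
      obtain ⟨e, rfl⟩ := Nat.not_even_iff_odd.1 he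
      omega

theorem exists_cl (D : ℕ) (h1 : 1 ≤ D) (h2 : ∀ j, D ≠ 2 ^ j) :
    ∃ c : Fin (2 * D - 2) → ℂ, CL D c := by
  induction D using Nat.strong_induction_on with
  | _ D ih =>
  have hD : 2 ≤ D := by have := h2 0; omega
  by_cases he : Even D
  · obtain ⟨d, hd⟩ := he
    obtain ⟨c, hc⟩ := ih d (by omega) (by omega) fun j hj => h2 (j + 1) (by omega)
    obtain ⟨η, hη, hη'⟩ := exists_circle_points ∅
    set z : Option (Fin (2 * d) ⊕ Fin (2 * d - 2)) → ℂ :=
      fun j => j.elim (η (2 * d)) (Sum.elim (fun i => η i) c) with hz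
    have h3 : PRP d False z Finset.univ := by
      intro P Q hP hQ h4 _
      refine hc P Q hP hQ (circle_identity hP hQ ((Finset.range (2 * d + 1)).image η) ?_ ?_ ?_)
        fun j => h4 (some (Sum.inr j)) (Finset.mem_univ _)
      · intro w hw
        obtain ⟨i, -, rfl⟩ := Finset.mem_image.1 hw
        exact (hη' i).1
      · rw [Finset.card_image_of_injective _ hη]; simp
      · intro w hw
        obtain ⟨i, hi, rfl⟩ := Finset.mem_image.1 hw
        rcases (Nat.le_of_lt_succ (Finset.mem_range.1 hi)).eq_or_lt with rfl | hi'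
        · exact h4 none (Finset.mem_univ _)
        · exact h4 (some (Sum.inl ⟨i, hi'⟩)) (Finset.mem_univ _)
    obtain ⟨c', hc'⟩ := step hD (ι := Fin (2 * d) ⊕ Fin (2 * d - 2)) (by simp; omega) _
      fun _ => by rw [show D / 2 = d by omega]; exact mobius h3
    obtain ⟨e⟩ : Nonempty (Fin (2 * D - 2) ≃ (Fin (2 * d) ⊕ Fin (2 * d - 2))) :=
      Fintype.card_eq.1 (by simp; omega)
    refine ⟨c' ∘ e, fun P Q hP hQ h4 h5 => hc' P Q hP hQ h4 fun j => ?_⟩
    simpa using h5 (e.symm j)
  · exact step hD (by simp; omega) (fun _ => 0) fun h => absurd h he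

end Pool.Agent.P.MP_32bf8a_an.PR
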